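import Pool.Agent.H95.Cheb

set_option autoImplicit false
open Pool.Agent.H95.ChebDefs

theorem Pool.Agent.Results.MP_ef9ba3_an.Cex.result :
    ∃ (P : R2 → R2) (Λ : R2 → R1) (ε η : ℝ) (y : R1), IsLinearMap ℝ P ∧
      IsLinearMap ℝ Λ ∧ 0 < ε ∧ 0 < η ∧ (∀ f, P f = 0 → Λ f = 0 → f = 0) ∧
      (consistent P Λ ε η y).Nonempty ∧ ∃ z, (∀ w, IsCheb (consistent P Λ ε η y) w ↔ w = z) ∧
        ∀ τ ∈ Set.Icc (0 : ℝ) 1, ∃ f, F P Λ y τ f < F P Λ y τ z :=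
  Pool.Agent.H95.Cheb.main
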